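import Pool.Agent.H207.TF.Stm3

/-!
# Deformations are the solutions of the linearized equations
-/

set_option autoImplicit false

open Polynomial

namespace Pool.Agent.H903.TF207.LIN

open Pool.Agent.H207.TF
open Pool.Agent.H792R2.CE Pool.Agent.H211.LR Pool.Agent.H211.AD

/-- divisibility by a power of `X - C e` and Taylor coefficients -/
theorem dvd_iff (F : ℂ[X]) (e : ℂ) (k : ℕ) :
    (X - C e) ^ k ∣ F ↔ ∀ j < k, (hasseDeriv j F).eval e = 0 := by
  rw [X_sub_C_pow_dvd_iff, X_pow_dvd_iff, ← taylor_apply]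
  simp only [taylor_coeff]

theorem hd_deriv (F : ℂ[X]) (j : ℕ) :
    hasseDeriv j (derivative F) = C ((j : ℂ) + 1) * hasseDeriv (j + 1) F := by
  have h := congrArg (fun L => L F) (hasseDeriv_comp (R := ℂ) j 1)
  simp only [LinearMap.comp_apply, hasseDeriv_one, LinearMap.smul_apply] at h
  rw [h]
  have h2 : (j + 1).choose j = j + 1 := Nat.choose_symm_add.trans (Nat.choose_one_right _)
  rw [h2, nsmul_eq_mul]
  simp

/-- the order of `T' Q - 2 T Q'` -/
theorem ord (T Q : ℂ[X]) (e : ℂ) (k : ℕ) (hT : T.eval e = 0) (hQ : Q.eval e ≠ 0) :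
    (X - C e) ^ (k + 1) ∣ T ↔ (X - C e) ^ k ∣ derivative T * Q - 2 * T * derivative Q := by
  by_cases h0 : T = 0
  · rw [h0]
    simp
  obtain ⟨g, hg, hg0⟩ := exists_eq_pow_rootMultiplicity_mul_and_not_dvd T h0 e
  set i := T.rootMultiplicity e with hi
  have hi1 : 1 ≤ i := (rootMultiplicity_pos h0).2 hT
  obtain ⟨l, hl⟩ : ∃ l, i = l + 1 := ⟨i - 1, by omega⟩
  rw [hl] at hg
  have hge : g.eval e ≠ 0 := by
    rw [dvd_iff_isRoot] at hg0
    exact hg0
  have h1 : (X - C e) ^ (k + 1) ∣ T ↔ k ≤ l := by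
    rw [← le_rootMultiplicity_iff h0, ← hi, hl]
    omega
  have hX : (X - C e : ℂ[X]) ≠ 0 := X_sub_C_ne_zero e
  set G := C ((l : ℂ) + 1) * g * Q + (X - C e) * (derivative g * Q - 2 * g * derivative Q) with hG
  have hGe : G.eval e ≠ 0 := by
    rw [hG]
    simp only [eval_add, eval_mul, eval_sub, eval_X, eval_C, sub_self, zero_mul, add_zero]
    exact mul_ne_zero (mul_ne_zero (Nat.cast_add_one_ne_zero l) hge) hQ
  have h2 : derivative T * Q - 2 * T * derivative Q = (X - C e) ^ l * G := by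
    rw [hg, hG, derivative_mul, derivative_pow]
    simp only [derivative_sub, derivative_X, derivative_C, sub_zero, mul_one, map_add, map_natCast,
      map_one, Nat.cast_add, Nat.cast_one, Nat.add_sub_cancel]
    ring
  rw [h1, h2]
  constructor
  · intro h
    exact dvd_mul_of_dvd_left (pow_dvd_pow _ h) _
  · intro h
    by_contra hcon
    push Not at hcon
    have h3 : (X - C e) ^ (l + 1) ∣ (X - C e) ^ l * G := (pow_dvd_pow _ hcon).trans h
    rw [pow_succ, mul_dvd_mul_iff_left (pow_ne_zero _ hX), dvd_iff_isRoot] at h3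
    exact hGe h3

/-- `S_LIN` with the equivalence in parentheses. -/
def S_LIN' : Prop :=
  ∀ (d : ℕ) (x v : EE d) (e κ : ℂ), wr (PP x) (QQ x) ≠ 0 → (wr (PP x) (QQ x)).eval e = 0 →
    (QQ x).eval e ≠ 0 →
    (((X - C e) ^ ((wr (PP x) (QQ x)).rootMultiplicity e + 1) ∣
        varS x v - C ((varS x v).eval e / (QQ x).eval e ^ 2) * (QQ x) ^ 2 +
          C κ * wr (PP x) (QQ x)) ↔
      ∀ j < (wr (PP x) (QQ x)).rootMultiplicity e, eqW x v e κ j = 0)

theorem t_LIN : S_LIN' := by
  intro d x v e κ hN hNe hQ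
  set P := PP x with hP
  set Q := QQ x with hQdef
  set N := wr P Q with hNdef
  set k := N.rootMultiplicity e with hk
  have hkN : (X - C e) ^ k ∣ N := pow_rootMultiplicity_dvd N e
  set u := (varS x v).eval e / Q.eval e ^ 2 with hu
  set T := varS x v - C u * Q ^ 2 + C κ * N with hT
  have hTe : T.eval e = 0 := by
    rw [hT]
    simp only [eval_add, eval_sub, eval_mul, eval_C, eval_pow, hNe, mul_zero, add_zero]
    rw [hu]
    field_simp
    ring
  have hid : derivative T * Q - 2 * T * derivative Q =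
      Q * (varW x v + C κ * derivative N) - 2 * N * (QQ v + C κ * derivative Q) := by
    rw [hT, hNdef]
    unfold varS varW wr
    simp only [derivative_add, derivative_sub, derivative_mul, derivative_C, derivative_pow,
      zero_mul, zero_add, Nat.cast_ofNat, ← hP, ← hQdef]
    simp only [map_ofNat]
    ring
  rw [ord T Q e k hTe hQ, hid]
  have h1 : (X - C e) ^ k ∣ 2 * N * (QQ v + C κ * derivative Q) :=
    dvd_mul_of_dvd_left (dvd_mul_of_dvd_right hkN _) _
  rw [dvd_sub_left h1]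
  have hco : IsCoprime ((X - C e) ^ k) Q := by
    refine IsCoprime.pow_left ?_
    rw [(irreducible_X_sub_C e).coprime_iff_not_dvd, dvd_iff_isRoot]
    exact hQ
  have h2 : (X - C e) ^ k ∣ Q * (varW x v + C κ * derivative N) ↔
      (X - C e) ^ k ∣ varW x v + C κ * derivative N :=
    ⟨fun h => hco.dvd_of_dvd_mul_left h, fun h => dvd_mul_of_dvd_right h _⟩
  rw [h2, dvd_iff]
  refine forall₂_congr fun j _ => ?_
  unfold eqW
  rw [map_add, ← smul_eq_C_mul, map_smul, hd_deriv, eval_add, eval_smul, eval_mul, eval_C,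
    smul_eq_mul]
  rw [← hP, ← hQdef, ← hNdef]
  have h3 : κ * (((j : ℂ) + 1) * (hasseDeriv (j + 1) N).eval e) =
    ((j : ℂ) + 1) * (hasseDeriv (j + 1) N).eval e * κ := by ring
  rw [h3]

end Pool.Agent.H903.TF207.LIN
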